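import Mathlib
import Pool.Agent.P.MP_4e9c6d_co.Defs
import Pool.Agent.P.MP_4e9c6d_co.Main

namespace Pool.Agent.Results.MP_4e9c6d_co.ModularIsNormal

open Pool.Agent.P.MP_4e9c6d_co

/-- For every finite field `K` (so `K = GF(q)` with `q` its number of elements) and every
`k ≥ 1`, each tangential `k`-block over `K` that has a modular hyperplane is normal. -/
theorem result :
    ∀ (K : Type) [Field K] [Fintype K] (k : ℕ), 1 ≤ k →
      ∀ (α : Type) (M : Matroid α) [M.Finite],
        IsTangentialBlock K k M → (∃ H : Set α, IsModularHyperplane M H) →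
          IsNormal (Fintype.card K) k M := by
  intro K _ _ k _ α M _ hM hH
  obtain ⟨hs, ⟨r, v, hv⟩, hk, hc⟩ := hM
  obtain ⟨H, hH⟩ := hH
  exact isNormal_of_modular (K := K) (v := v) hv hs hk hc hH

end Pool.Agent.Results.MP_4e9c6d_co.ModularIsNormal
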